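import Pool.Agent.K1H46.CP.Stm

/-! `t_CLS`: the number of binary cubic forms modulo `m ^ 2` (`m` squarefree, prime to 6) whose
discriminant is zero. -/

set_option autoImplicit false

namespace Pool.Agent.K1H92.CP

open Pool.Agent.K1H46.CP Finset

theorem map_dsc {R S : Type} [CommRing R] [CommRing S] (f : R →+* S) (a b c d : R) :
    dsc (f a) (f b) (f c) (f d) = f (dsc a b c d) := by
  simp only [dsc, map_add, map_sub, map_mul, map_pow, map_ofNat]

/-- the classes modulo `M` whose discriminant is zero -/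
def ZS (M : ℕ) : Set (ZMod M × ZMod M × ZMod M × ZMod M) :=
  {v | dsc v.1 v.2.1 v.2.2.1 v.2.2.2 = 0}

theorem mul_le {M N : ℕ} [NeZero M] [NeZero N] (h : Nat.Coprime M N) :
    (ZS (M * N)).ncard ≤ (ZS M).ncard * (ZS N).ncard := by
  classical
  have : NeZero (M * N) := ⟨mul_ne_zero (NeZero.ne M) (NeZero.ne N)⟩
  let e := ZMod.chineseRemainder h
  let g : (ZMod (M * N) × ZMod (M * N) × ZMod (M * N) × ZMod (M * N)) →
      (ZMod M × ZMod M × ZMod M × ZMod M) × (ZMod N × ZMod N × ZMod N × ZMod N) := fun v =>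
    (((e v.1).1, (e v.2.1).1, (e v.2.2.1).1, (e v.2.2.2).1),
      ((e v.1).2, (e v.2.1).2, (e v.2.2.1).2, (e v.2.2.2).2))
  rw [← Set.ncard_prod]
  refine Set.ncard_le_ncard_of_injOn g ?_ ?_ (Set.toFinite _)
  · rintro ⟨a, b, c, d⟩ hv
    replace hv : dsc a b c d = 0 := hv
    have h1 := map_dsc ((RingHom.fst (ZMod M) (ZMod N)).comp e.toRingHom) a b c d
    have h2 := map_dsc ((RingHom.snd (ZMod M) (ZMod N)).comp e.toRingHom) a b c d
    rw [hv, map_zero] at h1 h2
    exact ⟨h1, h2⟩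
  · rintro ⟨a, b, c, d⟩ - ⟨a', b', c', d'⟩ - h
    simp only [g, Prod.mk.injEq] at h
    obtain ⟨⟨h1, h2, h3, h4⟩, h5, h6, h7, h8⟩ := h
    have k1 := e.injective (Prod.ext h1 h5)
    have k2 := e.injective (Prod.ext h2 h6)
    have k3 := e.injective (Prod.ext h3 h7)
    have k4 := e.injective (Prod.ext h4 h8)
    rw [k1, k2, k3, k4]

section prime

variable (p : ℕ) [hp : Fact p.Prime]

instance : NeZero (p ^ 2) := ⟨pow_ne_zero 2 hp.out.ne_zero⟩

/-- reduction modulo `p` -/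
def φ : ZMod (p ^ 2) →+* ZMod p := ZMod.castHom (dvd_pow_self p two_ne_zero) (ZMod p)

theorem φ_surj : Function.Surjective (φ p) := ZMod.castHom_surjective _

theorem unit_iff (x : ZMod (p ^ 2)) : IsUnit x ↔ φ p x ≠ 0 := by
  conv_lhs => rw [← ZMod.natCast_zmod_val x]
  have h1 : φ p x = ((x.val : ℕ) : ZMod p) := by
    conv_lhs => rw [← ZMod.natCast_zmod_val x]
    rw [map_natCast]
  rw [h1, ZMod.isUnit_iff_coprime, Ne, ZMod.natCast_eq_zero_iff, Nat.coprime_pow_right_iff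
    (by norm_num), Nat.coprime_comm, hp.out.coprime_iff_not_dvd]

theorem fib (t : ZMod p) : (univ.filter fun x : ZMod (p ^ 2) => φ p x = t).card = p := by
  classical
  have h1 : ∀ s : ZMod p, (univ.filter fun x : ZMod (p ^ 2) => φ p x = s).card =
      (univ.filter fun x : ZMod (p ^ 2) => φ p x = t).card := fun s =>
    AddMonoidHom.card_fiber_eq_of_mem_range (φ p).toAddMonoidHom (φ_surj p s) (φ_surj p t)
  have h2 : ∑ s : ZMod p, (univ.filter fun x : ZMod (p ^ 2) => φ p x = s).card =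
      (univ : Finset (ZMod (p ^ 2))).card :=
    (Finset.card_eq_sum_card_fiberwise (fun _ _ => mem_coe.2 (mem_univ _))).symm
  rw [Finset.sum_congr rfl fun s _ => h1 s, Finset.sum_const, card_univ, card_univ, ZMod.card,
    ZMod.card, smul_eq_mul] at h2
  exact Nat.eq_of_mul_eq_mul_left hp.out.pos (h2.trans (pow_two p))

/-- the number of solutions `d` -/
noncomputable def K (a b c : ZMod (p ^ 2)) : ℕ :=
  (univ.filter fun d : ZMod (p ^ 2) => dsc a b c d = 0).card

theorem ne_of_five {k : ℕ} (hk : k ∣ 27 * 4) (h5 : 5 ≤ p) : ((k : ℕ) : ZMod p) ≠ 0 := by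
  rw [Ne, ZMod.natCast_eq_zero_iff]
  intro h
  have h1 : p ∣ 3 ^ 3 * 2 ^ 2 := by
    refine h.trans (hk.trans ?_)
    norm_num
  rcases (hp.out.dvd_mul).1 h1 with h2 | h2
  · have := Nat.le_of_dvd (by norm_num) (hp.out.dvd_of_dvd_pow h2)
    omega
  · have := Nat.le_of_dvd (by norm_num) (hp.out.dvd_of_dvd_pow h2)
    omega

theorem three_ne (h5 : 5 ≤ p) : (3 : ZMod p) ≠ 0 := by
  have := ne_of_five p (k := 3) (by norm_num) h5
  exact_mod_cast this

theorem two_ne (h5 : 5 ≤ p) : (2 : ZMod p) ≠ 0 := by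
  have := ne_of_five p (k := 2) (by norm_num) h5
  exact_mod_cast this

theorem card_le_p (s : Finset (ZMod (p ^ 2))) (t : ZMod p) (h : ∀ x ∈ s, φ p x = t) :
    s.card ≤ p := by
  exact (card_le_card fun x hx => mem_filter.2 ⟨mem_univ _, h x hx⟩).trans (fib p t).le

theorem K4 (a b c : ZMod (p ^ 2)) : K p a b c ≤ p ^ 2 := by
  refine (card_le_univ _).trans ?_
  rw [ZMod.card]

theorem K3 (a b c : ZMod (p ^ 2)) (h5 : 5 ≤ p) (ha : φ p a = 0) (hb : φ p b ≠ 0) :
    K p a b c ≤ p := by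
  refine card_le_p p _ ((φ p c) ^ 2 / (4 * φ p b)) fun d hd => ?_
  have h1 : dsc (φ p a) (φ p b) (φ p c) (φ p d) = 0 := by
    rw [map_dsc, (mem_filter.1 hd).2, map_zero]
  have h4 : (4 : ZMod p) ≠ 0 := by
    have := ne_of_five p (k := 4) (by norm_num) h5
    exact_mod_cast this
  rw [eq_div_iff (mul_ne_zero h4 hb)]
  have h2 : φ p b ^ 2 * (φ p c ^ 2 - 4 * φ p b * φ p d) = 0 := by
    rw [← h1, dsc, ha]
    ring
  have h3 := (mul_eq_zero.1 h2).resolve_left (pow_ne_zero 2 hb)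
  linear_combination -h3

theorem K2 (a b c : ZMod (p ^ 2)) (h5 : 5 ≤ p) (ha : φ p a ≠ 0)
    (hH : φ p (b ^ 2 - 3 * a * c) = 0) : K p a b c ≤ p := by
  refine card_le_p p _ ((9 * φ p a * φ p b * φ p c - 2 * φ p b ^ 3) / (27 * φ p a ^ 2))
    fun d hd => ?_
  have h1 : dsc (φ p a) (φ p b) (φ p c) (φ p d) = 0 := by
    rw [map_dsc, (mem_filter.1 hd).2, map_zero]
  have h4 : (27 : ZMod p) ≠ 0 := by
    have := ne_of_five p (k := 27) (by norm_num) h5
    exact_mod_cast this
  have hH' : φ p b ^ 2 - 3 * φ p a * φ p c = 0 := by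
    rw [← hH]
    simp only [map_sub, map_mul, map_pow, map_ofNat]
  rw [eq_div_iff (mul_ne_zero h4 (pow_ne_zero 2 ha))]
  have h2 : (27 * φ p a ^ 2 * φ p d - 9 * φ p a * φ p b * φ p c + 2 * φ p b ^ 3) ^ 2 = 0 := by
    have : (27 * φ p a ^ 2 * φ p d - 9 * φ p a * φ p b * φ p c + 2 * φ p b ^ 3) ^ 2 =
        4 * (φ p b ^ 2 - 3 * φ p a * φ p c) ^ 3 -
          27 * φ p a ^ 2 * dsc (φ p a) (φ p b) (φ p c) (φ p d) := by
      rw [dsc]
      ring
    rw [this, hH', h1]
    ring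
  linear_combination (pow_eq_zero_iff two_ne_zero).1 h2

theorem K1 (a b c : ZMod (p ^ 2)) (h5 : 5 ≤ p) (ha : φ p a ≠ 0)
    (hH : φ p (b ^ 2 - 3 * a * c) ≠ 0) : K p a b c ≤ 2 := by
  classical
  rw [K]
  set S := univ.filter fun d : ZMod (p ^ 2) => dsc a b c d = 0 with hS
  rcases S.eq_empty_or_nonempty with h | ⟨d₀, h0⟩
  · rw [h]
    exact Nat.zero_le _
  have hu : IsUnit (27 * a ^ 2) := by
    rw [unit_iff, map_mul, map_pow, map_ofNat]
    have h4 : (27 : ZMod p) ≠ 0 := by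
      have := ne_of_five p (k := 27) (by norm_num) h5
      exact_mod_cast this
    exact mul_ne_zero h4 (pow_ne_zero 2 ha)
  obtain ⟨u, hu⟩ := hu
  have hG : ∀ d ∈ S, (27 * a ^ 2 * d - 9 * a * b * c + 2 * b ^ 3) ^ 2 =
      4 * (b ^ 2 - 3 * a * c) ^ 3 := by
    intro d hd
    have h1 := (mem_filter.1 hd).2
    have : (27 * a ^ 2 * d - 9 * a * b * c + 2 * b ^ 3) ^ 2 =
        4 * (b ^ 2 - 3 * a * c) ^ 3 - 27 * a ^ 2 * dsc a b c d := by
      rw [dsc]
      ring
    rw [this, h1]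
    ring
  set G₀ := 27 * a ^ 2 * d₀ - 9 * a * b * c + 2 * b ^ 3 with hG0
  have hsub : S ⊆ {d₀, ((u⁻¹ : (ZMod (p ^ 2))ˣ) : ZMod (p ^ 2)) *
      (-G₀ + 9 * a * b * c - 2 * b ^ 3)} := by
    intro d hd
    rw [mem_insert, mem_singleton]
    have h2 : (27 * a ^ 2 * d - 9 * a * b * c + 2 * b ^ 3 - G₀) *
        (27 * a ^ 2 * d - 9 * a * b * c + 2 * b ^ 3 + G₀) = 0 := by
      have e1 := hG d hd
      have e2 := hG d₀ h0
      rw [← hG0] at e2
      linear_combination e1 - e2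
    by_cases h3 : IsUnit (27 * a ^ 2 * d - 9 * a * b * c + 2 * b ^ 3 + G₀)
    · left
      have h4 := (IsUnit.mul_left_eq_zero h3).1 h2
      have h5 : (u : ZMod (p ^ 2)) * d = u * d₀ := by
        rw [hu]
        rw [hG0] at h4
        linear_combination h4
      exact (Units.mul_right_inj u).1 h5
    · right
      have h4 : IsUnit (27 * a ^ 2 * d - 9 * a * b * c + 2 * b ^ 3 - G₀) := by
        by_contra h4
        rw [unit_iff, not_not] at h3 h4
        have e2 := hG d₀ h0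
        rw [← hG0] at e2
        have h6 : 2 * φ p G₀ = 0 := by
          have := congrArg₂ (fun x y => x - y) h3 h4
          simp only [map_add, map_sub, sub_zero] at this
          linear_combination this
        have h7 : φ p G₀ = 0 := (mul_eq_zero.1 h6).resolve_left (two_ne p h5)
        have h8 := congrArg (φ p) e2
        rw [map_pow, h7, map_mul, map_pow, map_ofNat] at h8
        have h4 : (4 : ZMod p) ≠ 0 := by
          have := ne_of_five p (k := 4) (by norm_num) h5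
          exact_mod_cast this
        exact mul_ne_zero h4 (pow_ne_zero 3 hH) (by rw [← h8]; ring)
      have h5 := (IsUnit.mul_right_eq_zero h4).1 h2
      rw [Units.eq_inv_mul_iff_mul_eq, hu]
      linear_combination h5
  exact (card_le_card hsub).trans card_le_two

theorem Kle (h5 : 5 ≤ p) (a b c : ZMod (p ^ 2)) : K p a b c ≤ 2 +
    (if φ p a ≠ 0 ∧ φ p (b ^ 2 - 3 * a * c) = 0 then p else 0) +
    (if φ p a = 0 ∧ φ p b = 0 then p ^ 2 else 0) + (if φ p a = 0 then p else 0) := by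
  by_cases ha : φ p a = 0
  · by_cases hb : φ p b = 0
    · have := K4 p a b c
      simp only [ha, hb, and_self, if_true]
      omega
    · have := K3 p a b c h5 ha hb
      simp only [ha, if_true]
      omega
  · by_cases hH : φ p (b ^ 2 - 3 * a * c) = 0
    · have := K2 p a b c h5 ha hH
      simp only [ha, hH, not_false_eq_true, and_self, if_true, ne_eq]
      omega
    · have := K1 p a b c h5 ha hH
      omega

theorem sum_ite_le (n : ℕ) (P : ZMod (p ^ 2) → Prop) [DecidablePred P] (t : ZMod p)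
    (h : ∀ x, P x → φ p x = t) : ∑ x, (if P x then n else 0) ≤ p * n := by
  rw [← Finset.sum_filter, Finset.sum_const, smul_eq_mul]
  exact Nat.mul_le_mul_right n (card_le_p p _ t fun x hx => h x (mem_filter.1 hx).2)

theorem sum_const' (n : ℕ) : ∑ _x : ZMod (p ^ 2), n = p ^ 2 * n := by
  rw [Finset.sum_const, card_univ, ZMod.card, smul_eq_mul]

theorem sum3 (h5 : 5 ≤ p) (a b : ZMod (p ^ 2)) : ∑ c, K p a b c ≤ p ^ 2 * 2 + p * p +
    (if φ p a = 0 ∧ φ p b = 0 then p ^ 2 * p ^ 2 else 0) + (if φ p a = 0 then p ^ 2 * p else 0) := by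
  refine (Finset.sum_le_sum fun c _ => Kle p h5 a b c).trans ?_
  rw [Finset.sum_add_distrib, Finset.sum_add_distrib, Finset.sum_add_distrib, sum_const',
    sum_const', sum_const']
  have h1 : ∑ c, (if φ p a ≠ 0 ∧ φ p (b ^ 2 - 3 * a * c) = 0 then p else 0) ≤ p * p := by
    refine sum_ite_le p p _ (φ p b ^ 2 / (3 * φ p a)) fun c hc => ?_
    obtain ⟨h1, h2⟩ := hc
    rw [eq_div_iff (mul_ne_zero (three_ne p h5) h1)]
    simp only [map_sub, map_mul, map_pow, map_ofNat] at h2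
    linear_combination -h2
  have h2 : p ^ 2 * (if φ p a = 0 ∧ φ p b = 0 then p ^ 2 else 0) =
      (if φ p a = 0 ∧ φ p b = 0 then p ^ 2 * p ^ 2 else 0) := by
    split_ifs <;> simp
  have h3 : p ^ 2 * (if φ p a = 0 then p else 0) = (if φ p a = 0 then p ^ 2 * p else 0) := by
    split_ifs <;> simp
  omega

theorem sum2 (h5 : 5 ≤ p) (a : ZMod (p ^ 2)) : ∑ b, ∑ c, K p a b c ≤ p ^ 2 * (p ^ 2 * 2 + p * p) +
    (if φ p a = 0 then p * (p ^ 2 * p ^ 2) + p ^ 2 * (p ^ 2 * p) else 0) := by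
  refine (Finset.sum_le_sum fun b _ => sum3 p h5 a b).trans ?_
  rw [Finset.sum_add_distrib, Finset.sum_add_distrib, sum_const', sum_const']
  by_cases ha : φ p a = 0
  · simp only [ha, true_and, if_true]
    have h1 : ∑ b, (if φ p b = 0 then p ^ 2 * p ^ 2 else 0) ≤ p * (p ^ 2 * p ^ 2) :=
      sum_ite_le p _ _ 0 fun b hb => hb
    omega
  · simp only [ha, false_and, if_false, Finset.sum_const_zero]
    omega

theorem sum1 (h5 : 5 ≤ p) : ∑ a, ∑ b, ∑ c, K p a b c ≤ 5 * p ^ 6 := by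
  refine (Finset.sum_le_sum fun a _ => sum2 p h5 a).trans ?_
  rw [Finset.sum_add_distrib, sum_const']
  have h1 : ∑ a, (if φ p a = 0 then p * (p ^ 2 * p ^ 2) + p ^ 2 * (p ^ 2 * p) else 0) ≤
      p * (p * (p ^ 2 * p ^ 2) + p ^ 2 * (p ^ 2 * p)) :=
    sum_ite_le p _ _ 0 fun b hb => hb
  refine (Nat.add_le_add_left h1 _).trans (le_of_eq ?_)
  ring

theorem prime_le (h5 : 5 ≤ p) : (ZS (p ^ 2)).ncard ≤ 5 * p ^ 6 := by
  classical
  refine le_trans (le_of_eq ?_) (sum1 p h5)
  have h1 : (ZS (p ^ 2)) = ((univ.filter fun v : ZMod (p ^ 2) × ZMod (p ^ 2) × ZMod (p ^ 2) ×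
      ZMod (p ^ 2) => dsc v.1 v.2.1 v.2.2.1 v.2.2.2 = 0) : Set _) := by
    ext v
    simp [ZS]
  rw [h1, Set.ncard_coe_finset, Finset.card_filter, Fintype.sum_prod_type]
  refine Finset.sum_congr rfl fun a _ => ?_
  rw [Fintype.sum_prod_type]
  refine Finset.sum_congr rfl fun b _ => ?_
  rw [Fintype.sum_prod_type]
  refine Finset.sum_congr rfl fun c _ => ?_
  rw [K, Finset.card_filter]

end prime

theorem ZS_one : (ZS (1 ^ 2)).ncard ≤ 1 := by
  have : Subsingleton (ZMod (1 ^ 2)) := by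
    rw [one_pow]
    infer_instance
  exact Set.ncard_le_one_of_subsingleton _

theorem main (m : ℕ) : Squarefree m → Nat.Coprime m 6 →
    (ZS (m ^ 2)).ncard ≤ 5 ^ m.primeFactors.card * m ^ 6 := by
  induction m using Nat.recOnPosPrimePosCoprime with
  | zero => intro h; exact absurd rfl h.ne_zero
  | one => intro _ _; simpa using ZS_one
  | prime_pow p n hp hn =>
    intro h h6
    have h1 : n = 1 := by
      by_contra h1
      have h2 : p * p ∣ p ^ n := by
        rw [← pow_two]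
        exact pow_dvd_pow p (by omega)
      exact hp.one_lt.ne' (Nat.isUnit_iff.1 (h p h2))
    subst h1
    rw [pow_one] at h6 ⊢
    have : Fact p.Prime := ⟨hp⟩
    rw [hp.primeFactors, card_singleton, pow_one]
    refine prime_le p ?_
    by_contra h5
    have hp2 := hp.two_le
    have h7 : p = 2 ∨ p = 3 ∨ p = 4 := by omega
    rcases h7 with rfl | rfl | rfl <;> revert h6 <;> decide
  | coprime a b ha hb hab iha ihb =>
    intro h h6
    have ha0 : a ≠ 0 := by omega
    have hb0 : b ≠ 0 := by omega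
    have : NeZero (a ^ 2) := ⟨pow_ne_zero 2 ha0⟩
    have : NeZero (b ^ 2) := ⟨pow_ne_zero 2 hb0⟩
    have h1 := iha (h.squarefree_of_dvd (dvd_mul_right a b)) (Nat.Coprime.coprime_dvd_left
      (dvd_mul_right a b) h6)
    have h2 := ihb (h.squarefree_of_dvd (dvd_mul_left b a)) (Nat.Coprime.coprime_dvd_left
      (dvd_mul_left b a) h6)
    rw [mul_pow, hab.primeFactors_mul, card_union_of_disjoint hab.disjoint_primeFactors]
    refine (mul_le (Nat.Coprime.pow 2 2 hab)).trans ((Nat.mul_le_mul h1 h2).trans (le_of_eq ?_))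
    ring

theorem t_CLS : S_CLS := main

end Pool.Agent.K1H92.CP
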